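import Pool.Agent.R203.IF.Stm
import Pool.Agent.Y590.GE.BK
import Pool.Agent.Y812.GE.EN

/-!
# Symmetric Birkhoff shortening
-/

set_option autoImplicit false

open Set Topology

noncomputable section

namespace Pool.Agent.R203.IF

open Pool.Agent.Y489.GE Pool.Agent.Y590.GE

variable {X : Type} [MetricSpace X] {r₀ r : ℝ} {m : X → X → ℝ → X}

/-- uniqueness of the minimal geodesics -/
theorem m_unique (hm : GMap X r m) (hr : r < r₀) (hU : UniqGeod X r₀) {x y z : X}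
    (hxy : dist x y ≤ r) {t : ℝ} (ht : t ∈ Icc (0 : ℝ) 1) (h1 : dist x z = t * dist x y)
    (h2 : dist z y = (1 - t) * dist x y) : z = m x y t := by
  have a1 := hm.dist_left hxy ht
  have a2 := hm.dist_right hxy ht
  refine hU x y z (m x y t) (by linarith) ?_ ?_ ?_
  · rw [h1, h2]; ring
  · rw [a1, a2]; ring
  · rw [h1, a1]

theorem m_symm (hm : GMap X r m) (hr : r < r₀) (hU : UniqGeod X r₀) {x y : X}
    (hxy : dist x y ≤ r) {t : ℝ} (ht : t ∈ Icc (0 : ℝ) 1) : m y x (1 - t) = m x y t := by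
  have ht' : 1 - t ∈ Icc (0 : ℝ) 1 := ⟨by linarith [ht.2], by linarith [ht.1]⟩
  have hyx : dist y x ≤ r := by rwa [dist_comm]
  have a1 := hm.dist_left hyx ht'
  have a2 := hm.dist_right hyx ht'
  refine m_unique hm hr hU hxy ht ?_ ?_
  · rw [dist_comm, a2, dist_comm y x]; ring
  · rw [dist_comm, a1, dist_comm y x]

theorem m_equiv (hm : GMap X r m) (hr : r < r₀) (hU : UniqGeod X r₀) {σ : X → X}
    (hσ : Isometry σ) {x y : X} (hxy : dist x y ≤ r) {t : ℝ} (ht : t ∈ Icc (0 : ℝ) 1) :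
    σ (m x y t) = m (σ x) (σ y) t := by
  have h := hσ.dist_eq x y
  refine m_unique hm hr hU (by rwa [h]) ht ?_ ?_
  · rw [hσ.dist_eq, h, hm.dist_left hxy ht]
  · rw [hσ.dist_eq, h, hm.dist_right hxy ht]

/-- the symmetric motion of polygons -/
def ps (m : X → X → ℝ → X) (N : ℕ) (θ : ℝ) (x : ZMod N → X) : ZMod N → X := fun i =>
  m (m (x i) (x (i - 1)) θ) (m (x i) (x (i + 1)) θ) (1 / 2)

section

variable {N : ℕ} {δ : ℝ}

theorem side' {x : ZMod N → X} (hx : x ∈ Pol X N δ) (i : ZMod N) :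
    dist (x i) (x (i - 1)) ≤ δ := by
  have := hx (i - 1)
  rw [sub_add_cancel, dist_comm] at this
  exact this

theorem uv_le (hm : GMap X r m) (hδ : δ ≤ r) {x : ZMod N → X} (hx : x ∈ Pol X N δ) {θ : ℝ}
    (hθ : θ ∈ Icc (0 : ℝ) (1 / 2)) (i : ZMod N) :
    dist (m (x i) (x (i - 1)) θ) (m (x i) (x (i + 1)) θ) ≤
      θ * (dist (x i) (x (i - 1)) + dist (x i) (x (i + 1))) := by
  have hθ' : θ ∈ Icc (0 : ℝ) 1 := ⟨hθ.1, by linarith [hθ.2]⟩
  have h1 := hm.dist_left ((side' hx i).trans hδ) hθ'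
  have h2 := hm.dist_left ((hx i).trans hδ) hθ'
  have h3 := dist_triangle_left (m (x i) (x (i - 1)) θ) (m (x i) (x (i + 1)) θ) (x i)
  rw [h1, h2] at h3
  linarith

theorem uv_le' (hm : GMap X r m) (hδ0 : 0 ≤ δ) (hδ : δ ≤ r) {x : ZMod N → X}
    (hx : x ∈ Pol X N δ) {θ : ℝ} (hθ : θ ∈ Icc (0 : ℝ) (1 / 2)) (i : ZMod N) :
    dist (m (x i) (x (i - 1)) θ) (m (x i) (x (i + 1)) θ) ≤ δ := by
  have h1 := uv_le hm hδ hx hθ i
  have h2 := side' hx i
  have h3 := hx i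
  have h4 : (0 : ℝ) ≤ dist (x i) (x (i - 1)) := dist_nonneg
  have h5 : (0 : ℝ) ≤ dist (x i) (x (i + 1)) := dist_nonneg
  nlinarith [hθ.1, hθ.2]

theorem ps_cont (hm : GMap X r m) (hδ0 : 0 ≤ δ) (hδ : δ ≤ r) {Z : Type} [TopologicalSpace Z]
    {S : Set Z} {x : Z → (ZMod N → X)} {t : Z → ℝ} (hx : ContinuousOn x S)
    (ht : ContinuousOn t S) (hxP : ∀ z ∈ S, x z ∈ Pol X N δ)
    (htI : ∀ z ∈ S, t z ∈ Icc (0 : ℝ) (1 / 2)) :
    ContinuousOn (fun z => ps m N (t z) (x z)) S := by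
  rw [continuousOn_pi]
  intro i
  have hI : ∀ z ∈ S, t z ∈ Icc (0 : ℝ) 1 := fun z hz =>
    ⟨(htI z hz).1, by linarith [(htI z hz).2]⟩
  have h1 : ContinuousOn (fun z => m (x z i) (x z (i - 1)) (t z)) S := by
    have : ContinuousOn (fun z => ((x z i, x z (i - 1), t z) : X × X × ℝ)) S :=
      ContinuousOn.prodMk ((continuous_apply i).comp_continuousOn hx)
        (ContinuousOn.prodMk ((continuous_apply (i - 1)).comp_continuousOn hx) ht)
    exact hm.cont.comp this (fun z hz => ⟨(side' (hxP z hz) i).trans hδ, hI z hz⟩)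
  have h2 : ContinuousOn (fun z => m (x z i) (x z (i + 1)) (t z)) S := by
    have : ContinuousOn (fun z => ((x z i, x z (i + 1), t z) : X × X × ℝ)) S :=
      ContinuousOn.prodMk ((continuous_apply i).comp_continuousOn hx)
        (ContinuousOn.prodMk ((continuous_apply (i + 1)).comp_continuousOn hx) ht)
    exact hm.cont.comp this (fun z hz => ⟨((hxP z hz) i).trans hδ, hI z hz⟩)
  have h3 : ContinuousOn (fun z => ((m (x z i) (x z (i - 1)) (t z),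
      m (x z i) (x z (i + 1)) (t z), 1 / 2) : X × X × ℝ)) S :=
    h1.prodMk (h2.prodMk continuousOn_const)
  exact hm.cont.comp h3 (fun z hz =>
    ⟨(uv_le' hm hδ0 hδ (hxP z hz) (htI z hz) i).trans hδ, by norm_num, by norm_num⟩)

theorem ps_mem (hm : GMap X r m) (hr : r < r₀) (hU : UniqGeod X r₀) (hδ0 : 0 ≤ δ) (hδ : δ ≤ r)
    {x : ZMod N → X} (hx : x ∈ Pol X N δ) {θ : ℝ} (hθ : θ ∈ Icc (0 : ℝ) (1 / 2)) :
    ps m N θ x ∈ Pol X N δ := by
  have hθ' : θ ∈ Icc (0 : ℝ) 1 := ⟨hθ.1, by linarith [hθ.2]⟩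
  have hhalf : (1 / 2 : ℝ) ∈ Icc (0 : ℝ) 1 := ⟨by norm_num, by norm_num⟩
  intro i
  -- v i = m (x i) (x (i+1)) θ, u (i+1) = m (x (i+1)) (x i) θ = m (x i) (x (i+1)) (1-θ)
  have hs := (hx i).trans hδ
  have e1 : m (x (i + 1)) (x (i + 1 - 1)) θ = m (x i) (x (i + 1)) (1 - θ) := by
    rw [add_sub_cancel_right]
    have := m_symm hm hr hU hs (t := 1 - θ) ⟨by linarith [hθ'.2], by linarith [hθ'.1]⟩
    rw [sub_sub_cancel] at this
    exact this
  have d1 : dist (m (x i) (x (i + 1)) θ) (m (x (i + 1)) (x (i + 1 - 1)) θ) =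
      (1 - 2 * θ) * dist (x i) (x (i + 1)) := by
    rw [e1, hm.dist_eq _ _ hs θ hθ' (1 - θ) ⟨by linarith [hθ'.2], by linarith [hθ'.1]⟩,
      abs_sub_comm, abs_of_nonneg (by linarith [hθ.2])]
    ring
  have d2 := hm.dist_right ((uv_le' hm hδ0 hδ hx hθ i).trans hδ) hhalf
  have d3 := hm.dist_left ((uv_le' hm hδ0 hδ hx hθ (i + 1)).trans hδ) hhalf
  have u1 := uv_le hm hδ hx hθ i
  have u2 := uv_le hm hδ hx hθ (i + 1)
  have s1 := side' hx i
  have s2 := hx i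
  have s3 := hx (i + 1)
  have s4 := side' hx (i + 1)
  have h1 : dist (ps m N θ x i) (ps m N θ x (i + 1)) ≤
      dist (ps m N θ x i) (m (x i) (x (i + 1)) θ) +
      dist (m (x i) (x (i + 1)) θ) (m (x (i + 1)) (x (i + 1 - 1)) θ) +
      dist (m (x (i + 1)) (x (i + 1 - 1)) θ) (ps m N θ x (i + 1)) := dist_triangle4 _ _ _ _
  have h2 : dist (ps m N θ x i) (m (x i) (x (i + 1)) θ) = (1 - 1 / 2) *
      dist (m (x i) (x (i - 1)) θ) (m (x i) (x (i + 1)) θ) := d2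
  have h3 : dist (m (x (i + 1)) (x (i + 1 - 1)) θ) (ps m N θ x (i + 1)) = 1 / 2 *
      dist (m (x (i + 1)) (x (i + 1 - 1)) θ) (m (x (i + 1)) (x (i + 1 + 1)) θ) := d3
  rw [h2, h3, d1] at h1
  have h0 := hθ.1
  have h0' := hθ.2
  have g1 : θ * (dist (x i) (x (i - 1)) + dist (x i) (x (i + 1))) ≤ θ * (δ + δ) :=
    mul_le_mul_of_nonneg_left (by linarith) h0
  have g2 : θ * (dist (x (i + 1)) (x (i + 1 - 1)) + dist (x (i + 1)) (x (i + 1 + 1))) ≤
      θ * (δ + δ) := mul_le_mul_of_nonneg_left (by linarith) h0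
  have g3 : (1 - 2 * θ) * dist (x i) (x (i + 1)) ≤ (1 - 2 * θ) * δ :=
    mul_le_mul_of_nonneg_left s2 (by linarith)
  linarith

theorem ps_zero (hm : GMap X r m) (hδ0 : 0 ≤ δ) (hδ : δ ≤ r) {x : ZMod N → X}
    (hx : x ∈ Pol X N δ) : ps m N 0 x = x := by
  funext i
  unfold ps
  rw [hm.zero _ _ ((side' hx i).trans hδ), hm.zero _ _ ((hx i).trans hδ)]
  exact hm.self (hδ0.trans hδ) _ ⟨by norm_num, by norm_num⟩

theorem ps_half (hm : GMap X r m) (hr : r < r₀) (hU : UniqGeod X r₀) (hδ : δ ≤ r)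
    {x : ZMod N → X} (hx : x ∈ Pol X N δ) (i : ZMod N) :
    ps m N (1 / 2) x i = ph m N (1 / 2) (ph m N (1 / 2) x) (i - 1) := by
  unfold ps ph
  rw [sub_add_cancel]
  congr 1
  have hs : dist (x (i - 1)) (x i) ≤ r := by
    rw [dist_comm]; exact (side' hx i).trans hδ
  have := m_symm hm hr hU hs (t := 1 / 2) ⟨by norm_num, by norm_num⟩
  rw [show (1 : ℝ) - 1 / 2 = 1 / 2 by norm_num] at this
  exact this

theorem ps_En [NeZero N] (hm : GMap X r m) (hr : r < r₀) (hU : UniqGeod X r₀) (hδ : δ ≤ r)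
    {x : ZMod N → X} (hx : x ∈ Pol X N δ) :
    En N (ps m N (1 / 2) x) ≤ En N (ph m N (1 / 2) x) := by
  have hhalf : (1 / 2 : ℝ) ∈ Icc (0 : ℝ) 1 := ⟨by norm_num, by norm_num⟩
  have h1 := Pool.Agent.Y812.GE.t_EN X r m hm N δ hδ x hx (1 / 2) hhalf
  have h2 := (Pool.Agent.Y812.GE.t_EN X r m hm N δ hδ _ h1.1 (1 / 2) hhalf).2
  refine le_trans (le_of_eq ?_) h2
  unfold En
  have e : ∀ i : ZMod N, dist (ps m N (1 / 2) x i) (ps m N (1 / 2) x (i + 1)) ^ 2 =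
      (fun j : ZMod N => dist (ph m N (1 / 2) (ph m N (1 / 2) x) j)
        (ph m N (1 / 2) (ph m N (1 / 2) x) (j + 1)) ^ 2) (i - 1) := by
    intro i
    dsimp only
    rw [ps_half hm hr hU hδ hx i, ps_half hm hr hU hδ hx (i + 1)]
    congr 3
    ring
  rw [Finset.sum_congr rfl fun i _ => e i]
  exact Equiv.sum_comp (Equiv.subRight (1 : ZMod N)) (fun j : ZMod N =>
    dist (ph m N (1 / 2) (ph m N (1 / 2) x) j) (ph m N (1 / 2) (ph m N (1 / 2) x) (j + 1)) ^ 2)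

theorem ps_fix (hm : GMap X r m) (hr0 : 0 ≤ r) {x : ZMod N → X} (hx : ∀ i, x i = x 0) {θ : ℝ}
    (hθ : θ ∈ Icc (0 : ℝ) (1 / 2)) : ps m N θ x = x := by
  funext i
  unfold ps
  rw [hx (i - 1), hx (i + 1), hx i, hm.self hr0 _ ⟨hθ.1, by linarith [hθ.2]⟩]
  exact hm.self hr0 _ ⟨by norm_num, by norm_num⟩

theorem ps_sym (hm : GMap X r m) (hr : r < r₀) (hU : UniqGeod X r₀) (hδ0 : 0 ≤ δ) (hδ : δ ≤ r)
    {σ : X → X} (hσ : Isometry σ) {x : ZMod N → X} (hx : x ∈ Pol X N δ)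
    (hs : ∀ i, x (-i) = σ (x i)) {θ : ℝ} (hθ : θ ∈ Icc (0 : ℝ) (1 / 2)) (i : ZMod N) :
    ps m N θ x (-i) = σ (ps m N θ x i) := by
  have hθ' : θ ∈ Icc (0 : ℝ) 1 := ⟨hθ.1, by linarith [hθ.2]⟩
  have hhalf : (1 / 2 : ℝ) ∈ Icc (0 : ℝ) 1 := ⟨by norm_num, by norm_num⟩
  unfold ps
  have e1 : x (-i - 1) = σ (x (i + 1)) := by
    rw [← hs, neg_add, sub_eq_add_neg]
  have e2 : x (-i + 1) = σ (x (i - 1)) := by
    rw [← hs, neg_sub, sub_eq_add_neg, add_comm]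
  rw [e1, e2, hs i, m_equiv hm hr hU hσ ((uv_le' hm hδ0 hδ hx hθ i).trans hδ) hhalf,
    m_equiv hm hr hU hσ ((side' hx i).trans hδ) hθ', m_equiv hm hr hU hσ ((hx i).trans hδ) hθ']
  have hd : dist (m (σ (x i)) (σ (x (i - 1))) θ) (m (σ (x i)) (σ (x (i + 1))) θ) ≤ r := by
    rw [← m_equiv hm hr hU hσ ((side' hx i).trans hδ) hθ',
      ← m_equiv hm hr hU hσ ((hx i).trans hδ) hθ', hσ.dist_eq]
    exact (uv_le' hm hδ0 hδ hx hθ i).trans hδ
  have := m_symm hm hr hU hd hhalf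
  rw [show (1 : ℝ) - 1 / 2 = 1 / 2 by norm_num] at this
  exact this

end

end Pool.Agent.R203.IF
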