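import Pool.Agent.R203.IF.BKS

/-!
# Symmetric Birkhoff shortening: the theorem
-/

set_option autoImplicit false

open Set Topology

noncomputable section

namespace Pool.Agent.R203.IF

open Pool.Agent.Y489.GE Pool.Agent.Y590.GE

theorem t_BKS : S_BKS := by
  intro X _ _ r₀ r m hm hr0 hU σ hσ hσ2 N _ _ δ hδ hδr hne
  have hr : 0 ≤ r := hδ.le.trans hδr
  have hM : (0 : ℝ) < ((2 * N : ℕ) : ℝ) := by
    exact_mod_cast Nat.pos_of_ne_zero (NeZero.ne (2 * N))
  have hhalf : (1 / 2 : ℝ) ∈ Icc (0 : ℝ) (1 / 2) := ⟨by norm_num, le_rfl⟩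
  have hhalf' : (1 / 2 : ℝ) ∈ Icc (0 : ℝ) 1 := ⟨by norm_num, by norm_num⟩
  set e : ℝ := δ / (2 * (2 * N : ℕ)) with he
  have he0 : 0 < e := by positivity
  -- uniform decrease
  have hdec : ∃ η : ℝ, 0 < η ∧ ∀ x ∈ Pol X (2 * N) δ, e ^ 2 ≤ En (2 * N) x →
      En (2 * N) (ps m (2 * N) (1 / 2) x) ≤ En (2 * N) x - η := by
    have hc1 : ContinuousOn (fun x : ZMod (2 * N) → X => ps m (2 * N) (1 / 2) x)
        (Pol X (2 * N) δ) :=
      ps_cont hm hδ.le hδr continuousOn_id continuousOn_const (fun z hz => hz)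
        (fun _ _ => hhalf)
    have hc : ContinuousOn (fun x : ZMod (2 * N) → X =>
        En (2 * N) x - En (2 * N) (ps m (2 * N) (1 / 2) x)) (Pol X (2 * N) δ) :=
      (En_cont (2 * N)).continuousOn.sub ((En_cont (2 * N)).comp_continuousOn hc1)
    set K : Set (ZMod (2 * N) → X) := Pol X (2 * N) δ ∩ {x | e ^ 2 ≤ En (2 * N) x} with hK
    have hKc : IsCompact K :=
      (Pol_compact (2 * N) δ).inter_right (isClosed_le continuous_const (En_cont (2 * N)))
    rcases K.eq_empty_or_nonempty with h0 | h0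
    · refine ⟨1, one_pos, fun x hx hx2 => ?_⟩
      have : x ∈ K := ⟨hx, hx2⟩
      rw [h0] at this
      exact this.elim
    · obtain ⟨x0, hx0, hmin⟩ := hKc.exists_isMinOn h0 (hc.mono inter_subset_left)
      refine ⟨En (2 * N) x0 - En (2 * N) (ps m (2 * N) (1 / 2) x0), ?_, fun x hx hx2 => ?_⟩
      · have h1 := (Pool.Agent.Y812.GE.t_EN X r m hm (2 * N) δ hδr x0 hx0.1 (1 / 2) hhalf').2
        have h2 := hne x0 hx0.1 hx0.2
        have h3 := ps_En hm hr0 hU hδr hx0.1
        exact sub_pos.2 (lt_of_le_of_lt h3 (lt_of_le_of_ne h1 h2))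
      · have h3 : En (2 * N) x0 - En (2 * N) (ps m (2 * N) (1 / 2) x0) ≤
            En (2 * N) x - En (2 * N) (ps m (2 * N) (1 / 2) x) := hmin (⟨hx, hx2⟩ : x ∈ K)
        linarith
  obtain ⟨η, hη, hdec⟩ := hdec
  -- symmetric polygons
  have hmem : ∀ x ∈ Sym X σ N δ, ∀ θ ∈ Icc (0 : ℝ) (1 / 2), ps m (2 * N) θ x ∈ Sym X σ N δ :=
    fun x hx θ hθ => ⟨ps_mem hm hr0 hU hδ.le hδr hx.1 hθ,
      fun i => ps_sym hm hr0 hU hδ.le hδr hσ hx.1 hx.2 hθ i⟩
  -- the shortening map
  let F : ↥(Sym X σ N δ) → ↥(Sym X σ N δ) := fun x =>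
    ⟨ps m (2 * N) (1 / 2) x.1, hmem x.1 x.2 _ hhalf⟩
  have hFc : Continuous F := by
    refine Continuous.subtype_mk ?_ _
    rw [← continuousOn_univ]
    exact ps_cont hm hδ.le hδr continuous_subtype_val.continuousOn continuousOn_const
      (fun z _ => z.2.1) (fun _ _ => hhalf)
  have hFen : ∀ x : ↥(Sym X σ N δ), En (2 * N) (F x).1 ≤ En (2 * N) x.1 := fun x =>
    (ps_En hm hr0 hU hδr x.2.1).trans
      (Pool.Agent.Y812.GE.t_EN X r m hm (2 * N) δ hδr x.1 x.2.1 (1 / 2) hhalf').2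
  have hFfix : ∀ x : ↥(Sym X σ N δ), (∀ i, x.1 i = x.1 0) → F x = x := by
    intro x hx
    apply Subtype.ext
    exact ps_fix hm hr hx hhalf
  have hFkfix : ∀ k : ℕ, ∀ x : ↥(Sym X σ N δ), (∀ i, x.1 i = x.1 0) → F^[k] x = x := by
    intro k x hx
    exact Function.iterate_fixed (hFfix x hx) k
  have hFken : ∀ k : ℕ, ∀ x : ↥(Sym X σ N δ), En (2 * N) (F^[k] x).1 < e ^ 2 ∨
      En (2 * N) (F^[k] x).1 ≤ En (2 * N) x.1 - k * η := by
    intro k x
    induction k with
    | zero => right; simp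
    | succ k ih =>
      rw [Function.iterate_succ_apply']
      rcases ih with h | h
      · left; exact (hFen _).trans_lt h
      · rcases lt_or_ge (En (2 * N) (F^[k] x).1) (e ^ 2) with h2 | h2
        · left; exact (hFen _).trans_lt h2
        · right
          have h3 := hdec (F^[k] x).1 (F^[k] x).2.1 h2
          change En (2 * N) (ps m (2 * N) (1 / 2) (F^[k] x).1) ≤ _
          push_cast
          linarith
  obtain ⟨k, hk⟩ := exists_nat_gt (((2 * N : ℕ) : ℝ) * δ ^ 2 / η)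
  have hkk : ∀ x : ↥(Sym X σ N δ), En (2 * N) (F^[k] x).1 < e ^ 2 := by
    intro x
    rcases hFken k x with h | h
    · exact h
    · have h1 := En_le (2 * N) x.2.1
      have h2 := En_nonneg (2 * N) (F^[k] x).1
      rw [div_lt_iff₀ hη] at hk
      exfalso
      linarith
  -- the homotopy of one step
  have hstep : Htp (Y := ↥(Sym X σ N δ)) (W := ZMod (2 * N) → X) (Sym X σ N δ)
      {x | ∀ i, x.1 i = x.1 0} (fun x => x.1) (fun x => (F x).1) := by
    have hs : ∀ s ∈ Icc (0 : ℝ) 1, s / 2 ∈ Icc (0 : ℝ) (1 / 2) := fun s hs =>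
      ⟨by linarith [hs.1], by linarith [hs.2]⟩
    refine Htp.of_clamp (fun y s => ps m (2 * N) (s / 2) y.1) ?_ ?_ ?_ ?_ ?_
    · exact ps_cont hm hδ.le hδr (continuous_subtype_val.comp continuous_fst).continuousOn
        (continuous_snd.div_const 2).continuousOn (fun z _ => z.1.2.1) (fun z hz => hs _ hz)
    · intro y s h
      exact hmem y.1 y.2 _ (hs s h)
    · intro y
      change ps m (2 * N) (0 / 2) y.1 = y.1
      rw [zero_div]
      exact ps_zero hm hδ.le hδr y.2.1
    · intro y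
      rfl
    · intro y hy s h
      exact ps_fix hm hr hy (hs s h)
  have hiter : ∀ k : ℕ, Htp (Y := ↥(Sym X σ N δ)) (W := ZMod (2 * N) → X) (Sym X σ N δ)
      {x | ∀ i, x.1 i = x.1 0} (fun x => x.1) (fun x => (F^[k] x).1) := by
    intro k
    induction k with
    | zero =>
      refine ⟨fun y _ => y.1, ?_, ?_, ?_, ?_, ?_⟩
      · exact continuous_subtype_val.comp continuous_fst
      · exact fun y _ => y.2
      · exact fun _ _ _ => rfl
      · exact fun _ _ _ => rfl
      · exact fun _ _ _ => rfl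
    | succ k ih =>
      have h1 := hstep.precomp (Z' := {x : ↥(Sym X σ N δ) | ∀ i, x.1 i = x.1 0}) (F^[k])
        (hFc.iterate k) (fun y hy => by rw [hFkfix k y hy]; exact hy)
      have h2 := ih.trans h1
      have h3 : (fun x : ↥(Sym X σ N δ) => (F^[k + 1] x).1) = fun x => (F (F^[k] x)).1 := by
        funext x
        rw [Function.iterate_succ_apply']
      rw [h3]
      exact h2
  -- the cone
  have hfar : ∀ y : ↥(Sym X σ N δ), ∀ i, dist ((F^[k] y).1 i) ((F^[k] y).1 0) ≤ δ / 2 := by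
    intro y i
    have h1 := far_le (2 * N) he0 (hkk y) i
    have h2 : ((2 * N : ℕ) : ℝ) * e = δ / 2 := by
      rw [he]
      field_simp
    rwa [h2] at h1
  have hfar' : ∀ y : ↥(Sym X σ N δ), ∀ i, dist ((F^[k] y).1 i) ((F^[k] y).1 0) ≤ r :=
    fun y i => (hfar y i).trans (by linarith)
  refine ⟨fun x => (F^[k] x).1 0, (hiter k).trans ?_⟩
  refine Htp.of_clamp (fun y s i => m ((F^[k] y).1 i) ((F^[k] y).1 0) s) ?_ ?_ ?_ ?_ ?_
  · rw [continuousOn_pi]
    intro i
    have hc : Continuous (fun z : ↥(Sym X σ N δ) × ℝ => (F^[k] z.1).1) :=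
      continuous_subtype_val.comp ((hFc.iterate k).comp continuous_fst)
    have h1 : Continuous (fun z : ↥(Sym X σ N δ) × ℝ =>
        (((F^[k] z.1).1 i, (F^[k] z.1).1 0, z.2) : X × X × ℝ)) := by
      refine Continuous.prodMk ?_ (Continuous.prodMk ?_ continuous_snd)
      · exact (continuous_apply i).comp hc
      · exact (continuous_apply 0).comp hc
    exact hm.cont.comp h1.continuousOn (fun z hz => ⟨hfar' z.1 i, hz⟩)
  · intro y s hs
    refine ⟨fun i => ?_, fun i => ?_⟩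
    · have h1 := hm.dist_right (hfar' y i) hs
      have h2 := hm.dist_right (hfar' y (i + 1)) hs
      have h3 := hfar y i
      have h4 := hfar y (i + 1)
      have h5 : (0 : ℝ) ≤ dist ((F^[k] y).1 i) ((F^[k] y).1 0) := dist_nonneg
      have h6 : (0 : ℝ) ≤ dist ((F^[k] y).1 (i + 1)) ((F^[k] y).1 0) := dist_nonneg
      refine (dist_triangle_right _ _ ((F^[k] y).1 0)).trans ?_
      rw [h1, h2]
      nlinarith [hs.1, hs.2, mul_nonneg hs.1 h5, mul_nonneg hs.1 h6]
    · have h1 := (F^[k] y).2.2 i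
      have h2 := (F^[k] y).2.2 0
      rw [neg_zero] at h2
      change m ((F^[k] y).1 (-i)) ((F^[k] y).1 0) s = σ (m ((F^[k] y).1 i) ((F^[k] y).1 0) s)
      rw [m_equiv hm hr0 hU hσ (hfar' y i) hs, ← h2, h1]
  · intro y
    funext i
    exact hm.zero _ _ (hfar' y i)
  · intro y
    funext i
    exact hm.one _ _ (hfar' y i)
  · intro y hy s hs
    funext i
    rw [hFkfix k y hy, hy i]
    exact hm.self hr _ hs

/-- transport of the contraction -/
theorem t_TRS (X : Type) [MetricSpace X] [CompactSpace X] (σ : X → X) (hσ : Isometry σ) (p : X)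
    (lam : ℝ) (hP : PushS X σ p lam) (hlam : 0 ≤ lam) (N : ℕ) [NeZero N] [NeZero (2 * N)]
    (δ : ℝ) (hS : SymC X σ N δ) : SympC X σ N δ (lam * δ) p := by
  obtain ⟨c, H, hH, hHT, hH0', hH1', hHZ'⟩ := hS
  have hH0 : ∀ (y : ↥(Sym X σ N δ)) (s : ℝ), s ≤ 0 → H y s = y.1 := hH0'
  have hH1 : ∀ (y : ↥(Sym X σ N δ)) (s : ℝ), 1 ≤ s → H y s = fun _ => c y := hH1'
  have hHZ : ∀ y : ↥(Sym X σ N δ), (∀ i, y.1 i = y.1 0) → ∀ s, H y s = y.1 := hHZ'
  have hclosed : IsClosed (Symp X σ N δ p) := by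
    have h1 : Symp X σ N δ p =
        ((⋂ i : ZMod (2 * N), {x : ZMod (2 * N) → X | dist (x i) (x (i + 1)) ≤ δ}) ∩
        (⋂ i : ZMod (2 * N), {x : ZMod (2 * N) → X | x (-i) = σ (x i)})) ∩ {x | x 0 = p} := by
      ext x
      simp [Symp, Sym, Pol]
    rw [h1]
    refine IsClosed.inter (IsClosed.inter (isClosed_iInter fun i => ?_)
      (isClosed_iInter fun i => ?_)) ?_
    · exact isClosed_le ((continuous_apply i).dist (continuous_apply (i + 1))) continuous_const
    · exact isClosed_eq (continuous_apply (-i)) (hσ.continuous.comp (continuous_apply i))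
    · exact isClosed_eq (continuous_apply 0) continuous_const
  have hcomp : CompactSpace ↥(Symp X σ N δ p) :=
    isCompact_iff_compactSpace.1 hclosed.isCompact
  obtain ⟨u, hu⟩ : ∃ u : ↥(Symp X σ N δ p) → ↥(Sym X σ N δ), ∀ x, u x = ⟨x.1, x.2.1⟩ :=
    ⟨_, fun _ => rfl⟩
  have hu1 : ∀ x, (u x).1 = x.1 := fun x => by rw [hu]
  have hucont : Continuous u := by
    rw [continuous_induced_rng]
    have : (Subtype.val ∘ u) = Subtype.val := funext fun x => hu1 x
    rw [this]
    exact continuous_subtype_val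
  have hHu : Continuous (fun z : ↥(Symp X σ N δ p) × ℝ => H (u z.1) (2 * z.2 - 1)) :=
    hH.comp ((hucont.comp continuous_fst).prodMk (by fun_prop))
  obtain ⟨φ, hφ, hφL, hφp, hφ0, hφσ⟩ := hP ↥(Symp X σ N δ p)
    (fun x s => H (u x) (2 * s - 1) 0) ((continuous_apply (0 : ZMod (2 * N))).comp hHu)
    (fun x s => by
      have h1 := (hHT (u x) (2 * s - 1)).2 0
      rw [neg_zero] at h1
      exact h1.symm)
    (fun x s hs => by
      rw [hH0 _ _ (by linarith), hu1]
      exact x.2.2)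
    (fun x s hs => by
      rw [hH1 _ _ (by linarith), hH1 _ _ (by norm_num)])
  refine ⟨fun x s i => φ x s (H (u x) (2 * s - 1) i), ?_, ?_, ?_, ?_, ?_⟩
  · refine continuous_pi fun i => ?_
    exact hφ.comp (continuous_id.prodMk ((continuous_apply i).comp hHu))
  · intro x s
    refine ⟨⟨fun i => ?_, fun i => ?_⟩, hφp x s⟩
    · refine (hφL _ _ _ _).trans ?_
      exact mul_le_mul_of_nonneg_left ((hHT (u x) _).1 i) hlam
    · change φ x s (H (u x) (2 * s - 1) (-i)) = σ (φ x s (H (u x) (2 * s - 1) i))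
      rw [(hHT (u x) (2 * s - 1)).2 i, hφσ]
  · intro x s hs
    funext i
    dsimp only
    rw [hφ0 x s hs, hH0 _ _ (by linarith), hu1]
  · intro x s hs
    funext i
    dsimp only
    have h1 := hφp x s
    rw [hH1 _ _ (by linarith)] at h1 ⊢
    exact h1
  · intro x hx s
    have h1 : ∀ s, H (u x) s = x.1 := by
      intro s
      rw [← hu1 x]
      refine hHZ (u x) ?_ s
      intro i
      rw [hu1]
      rw [hx i, hx 0]
    have h2 := hφp x s
    rw [h1, hx 0] at h2
    funext i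
    dsimp only
    rw [h1 (2 * s - 1), hx i, h2]

end Pool.Agent.R203.IF
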