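import Pool.Agent.R203.IF.OMM

/-!
# Project IF, second part: the assembly
-/

set_option autoImplicit false

open Set Topology Filter

noncomputable section

namespace Pool.Agent.R203.IF

open Pool.Agent.Y489.GE

/-- deformation of maps into the fixed point set, or a short closed geodesic -/
theorem mainTwo (h_MG : S_MG) (h_CG : S_CG) (h_SET : S_SET) (X : Type) [MetricSpace X]
    [CompactSpace X] (σ : X → X) (hσ : Isometry σ) (hσ2 : ∀ x, σ (σ x) = x) (p : X)
    (hp : σ p = p) (r L : ℝ) (hr : 0 < r) (hL : 0 ≤ L) (hX : GeodSpace X) (hU : UniqGeod X r)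
    (Θ : X → ℝ → X) (hΘ : Tracks X σ p L Θ)
    (q : ℕ) (hq : 1 ≤ q) (K : Type) [MetricSpace K] [CompactSpace K] (hK : CovDim K q)
    (f : K → X) (hf : Continuous f) (A : Set K) (hA : ∀ k ∈ A, f k = p)
    (hno : ¬ ClosedGeod X (4 * q * Metric.diam (univ : Set X) + 2 * (q - 1) * L)) :
    ∃ H : K → ℝ → X, Continuous (fun z : K × ℝ => H z.1 z.2) ∧ (∀ k, σ (H k 0) = H k 0) ∧
      (∀ k, H k 1 = f k) ∧ ∀ k ∈ A, ∀ s, H k s = p := by
  classical
  by_cases hsub : Subsingleton X
  · exact ⟨fun _ _ => p, continuous_const, fun _ => hp, fun k => Subsingleton.elim _ _,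
      fun _ _ _ => rfl⟩
  have hnt : Nontrivial X := not_subsingleton_iff_nontrivial.1 hsub
  obtain ⟨x₀, y₀, hxy⟩ := exists_pair_ne X
  have hd0 : 0 < dist x₀ y₀ := dist_pos.2 hxy
  have hbd : Bornology.IsBounded (univ : Set X) := isCompact_univ.isBounded
  set D := Metric.diam (univ : Set X) with hD
  have hdD : ∀ x y : X, dist x y ≤ D := fun x y =>
    Metric.dist_le_diam_of_mem hbd (mem_univ x) (mem_univ y)
  have hDpos : 0 < D := lt_of_lt_of_le hd0 (hdD _ _)
  have hq1 : (1 : ℝ) ≤ q := by exact_mod_cast hq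
  set T : ℝ := (q - 1) * L with hT
  have hT0 : 0 ≤ T := mul_nonneg (by linarith) hL
  obtain ⟨m, hm⟩ := h_MG X r hr hX hU
  have hr2 : 0 < r / 2 := by linarith
  obtain ⟨N, hN⟩ := exists_nat_gt ((2 * q * D + T + 1) / (r / 2))
  have hL0 : 0 < 2 * q * D + T + 1 := by positivity
  have hN0 : (0 : ℝ) < N := lt_trans (by positivity) hN
  have hN' : N ≠ 0 := by
    rintro rfl
    simp at hN0
  have : NeZero N := ⟨hN'⟩
  have : NeZero (2 * N) := ⟨by omega⟩
  have hNr : (2 * q * D + T + 1) / N < r / 2 := by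
    rw [div_lt_iff₀ hr2] at hN
    rw [div_lt_iff₀ hN0]
    linarith
  have hN1 : ∀ a : ℝ, a ≤ 2 * q * D + T + 1 → a / N ≤ r / 2 := by
    intro a ha
    exact (div_le_div_of_nonneg_right ha hN0.le).trans hNr.le
  -- minimal geodesics from `p`
  have hpath : ∀ y : X, ∃ c ∈ Pa p D, c D = y := fun y => exists_path hX p y hDpos (hdD p y)
  have hcast : ((2 * N : ℕ) : ℝ) = 2 * (N : ℝ) := by push_cast; ring
  -- small parameters
  by_cases hbad : ∀ ε : ℝ, 0 < ε → ε ≤ r / 2 → 2 * q * ε ≤ 1 →
      ∃ x ∈ Pol X (2 * N) ((2 * q * (D + ε) + T) / N), (D / (2 * (N * N))) ^ 2 ≤ En (2 * N) x ∧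
        En (2 * N) (ph m (2 * N) (1 / 2) x) = En (2 * N) x
  · exfalso
    apply hno
    set ε₁ := min (r / 2) (1 / (2 * (q : ℝ))) with hε₁
    have hS2 : 0 < 2 * (q : ℝ) := by linarith
    have hε₁0 : 0 < ε₁ := lt_min hr2 (by positivity)
    have hu : Tendsto (fun n : ℕ => (2 * q * (D + ε₁ * (1 / ((n : ℝ) + 1))) + T) / N) atTop
        (𝓝 ((2 * q * D + T) / N)) := by
      have h1 : Tendsto (fun n : ℕ => (2 * q * (D + ε₁ * (1 / ((n : ℝ) + 1))) + T) / N) atTop
          (𝓝 ((2 * q * (D + ε₁ * 0) + T) / N)) :=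
        ((tendsto_const_nhds.mul (tendsto_const_nhds.add (tendsto_const_nhds.mul
          tendsto_one_div_add_atTop_nhds_zero_nat))).add tendsto_const_nhds).div_const _
      simpa using h1
    have hlt : (2 * q * D + T) / N < r / 2 := by
      refine lt_of_lt_of_le ?_ hNr.le
      exact div_lt_div_of_pos_right (by linarith) hN0
    obtain ⟨x, hx1, hx2, hx3⟩ := limit_polygon hm (2 * N) ((2 * q * D + T) / N)
      ((D / (2 * (N * N))) ^ 2) hlt _ hu
      (by
        intro n
        have hn1 : (0 : ℝ) < 1 / ((n : ℝ) + 1) := by positivity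
        have hn2 : 1 / ((n : ℝ) + 1) ≤ 1 := by
          rw [div_le_one (by positivity)]
          have : (0 : ℝ) ≤ n := Nat.cast_nonneg n
          linarith
        have hle : ε₁ * (1 / ((n : ℝ) + 1)) ≤ ε₁ := by nlinarith
        refine hbad _ (by positivity) (hle.trans (min_le_left _ _)) ?_
        calc 2 * q * (ε₁ * (1 / ((n : ℝ) + 1))) ≤ 2 * q * (1 / (2 * q)) :=
              mul_le_mul_of_nonneg_left (hle.trans (min_le_right _ _)) hS2.le
          _ = 1 := mul_one_div_cancel hS2.ne')
    have hpos : 0 < En (2 * N) x := lt_of_lt_of_le (by positivity) hx2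
    have h5 := h_CG X (r / 2) m hm (2 * N) ((2 * q * D + T) / N) hlt.le x hx1 hx3 hpos
    have h6 : ((2 * N : ℕ) : ℝ) * ((2 * q * D + T) / N) = 4 * q * D + 2 * (q - 1) * L := by
      rw [hcast, hT]
      field_simp
      ring
    rwa [h6] at h5
  · push Not at hbad
    obtain ⟨ε, hε0, hεr, hεS, hgood⟩ := hbad
    have hb0 : 0 < D + ε := by linarith
    set b := D + ε with hb
    -- contraction of the paths
    have hOm : ∀ j, j < q → OFC (Fx σ) p ((b + j * (2 * b + L)) + b)
        ((b + ((j + 1 : ℕ) : ℝ) * (2 * b + L)) - b) := by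
      intro j hj
      have hjq : (j : ℝ) + 1 ≤ q := by exact_mod_cast hj
      have hj0 : (0 : ℝ) ≤ j := Nat.cast_nonneg j
      set a := (b + j * (2 * b + L)) + b with ha
      have ha0 : 0 < a := by positivity
      have ha2 : 2 * b ≤ a := by
        have : 0 ≤ (j : ℝ) * (2 * b + L) := by positivity
        linarith
      have haT : a ≤ 2 * q * b + T := by
        have h1 : a = 2 * b * (j + 1) + j * L := by rw [ha]; ring
        rw [h1, hT]
        have h2 : 2 * b * (j + 1) ≤ 2 * b * q := mul_le_mul_of_nonneg_left hjq (by linarith)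
        have h3 : (j : ℝ) * L ≤ (q - 1) * L := mul_le_mul_of_nonneg_right (by linarith) hL
        linarith
      have haL : a ≤ 2 * q * D + T + 1 := by
        have : 2 * q * b = 2 * q * D + 2 * q * ε := by rw [hb]; ring
        linarith
      have haN : 0 < a / N := by positivity
      have hPol : SymC X σ N (a / N) := by
        refine t_BKS X r (r / 2) m hm (by linarith) hU σ hσ hσ2 N (a / N) haN
          (hN1 a haL) ?_
        intro x hx hxe
        refine hgood x ?_ ?_
        · intro i
          exact (hx i).trans (div_le_div_of_nonneg_right haT hN0.le)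
        · refine le_trans ?_ hxe
          rw [hcast]
          have h4 : D / (2 * (N * N)) ≤ a / N / (2 * (2 * N)) := by
            rw [div_div, div_le_div_iff₀ (by positivity) (by positivity)]
            have h5 : 2 * D ≤ a := by linarith
            have h6 : (0 : ℝ) ≤ (N : ℝ) * N := by positivity
            nlinarith
          exact pow_le_pow_left₀ (by positivity) h4 2
      have h7 := t_OMM X (r / 2) m hm σ hσ hσ2 p hp a L N ha0 hL (hN1 a haL) Θ hΘ hPol
      have h8 : (b + ((j + 1 : ℕ) : ℝ) * (2 * b + L)) - b = a + L := by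
        rw [ha]
        push_cast
        ring
      rw [h8]
      exact h7
    obtain ⟨t, ρ, hdata⟩ := h_SET X K q hK (r / 2) m hm p D hDpos.le hpath ε hε0 hεr f hf A hA
    obtain ⟨Γ, hΓ1, hΓ2, hΓ3⟩ := t_RECG (Fx σ) p b (fun j : ℕ => b + j * (2 * b + L)) q hp hb0.le
      (by simp) (fun j _ => by
        push_cast
        nlinarith) hOm f A t ρ hdata
    refine ⟨fun k s => Γ k (s * (b + q * (2 * b + L))), ?_, ?_, ?_, ?_⟩
    · exact eval_cont (F := fun z : K × ℝ => Γ z.1) (hΓ1.comp continuous_fst)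
        (fun z => (hΓ2 z.1).1.1) (continuous_snd.mul continuous_const)
    · intro k
      dsimp only
      rw [zero_mul]
      exact (hΓ2 k).1.2.1
    · intro k
      dsimp only
      rw [one_mul]
      exact (hΓ2 k).2
    · intro k hk s
      dsimp only
      rw [hΓ3 k hk]

end Pool.Agent.R203.IF
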