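import Pool.Agent.R203.IF.Fin
import Pool.Agent.R441.IF.OMF
import Pool.Agent.R520.IF.RECF
import Pool.Agent.R123.IF.CPF
import Pool.Agent.Y467.GE.CP

/-!
# Project IF, second part: fixed point sets which are contractible along short tracks
-/

set_option autoImplicit false

open Set Topology Filter

noncomputable section

namespace Pool.Agent.R203.IF

open Pool.Agent.Y489.GE Pool.Agent.Y50.GE Pool.Agent.R441.IF

/-- the fixed point set of `σ` is contracted in `X` to `p` along tracks of length at most `L`: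
a continuous family of paths `Θ y`, `y ∈ Fix σ`, of speed at most one from `y` to `p`, which are
constant outside `[0, L]`, and the path of `p` is constant -/
def Tracks (X : Type) [MetricSpace X] (σ : X → X) (p : X) (L : ℝ) (Θ : X → ℝ → X) : Prop :=
  ContinuousOn Θ (Fx σ) ∧ Θ p = (fun _ => p) ∧
    ∀ y ∈ Fx σ, (∀ s t, dist (Θ y s) (Θ y t) ≤ |s - t|) ∧ (∀ t, t ≤ 0 → Θ y t = y) ∧
      ∀ t, L ≤ t → Θ y t = p

section

variable {X : Type} [MetricSpace X] {r : ℝ} {m : X → X → ℝ → X}

theorem pol_lip (hm : GMap X r m) {N : ℕ} {e : ℝ} (he : e ≤ r) (he0 : 0 < e)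
    {x : ZMod N → X} (hx : x ∈ Pol X N e) (s t : ℝ) :
    dist (pol m N e x s) (pol m N e x t) ≤ |s - t| := by
  unfold pol
  refine (bar_lip hm he hx _ _).trans ?_
  have h1 := cl_lip N (s / e) (t / e)
  have h2 : |s / e - t / e| = |s - t| / e := by
    rw [← sub_div, abs_div, abs_of_pos he0]
  rw [h2] at h1
  calc e * |cl N (s / e) - cl N (t / e)| ≤ e * (|s - t| / e) :=
        mul_le_mul_of_nonneg_left h1 he0.le
    _ = |s - t| := by field_simp

theorem pol_end (hm : GMap X r m) {N : ℕ} {e : ℝ} (he : e ≤ r) (he0 : 0 < e)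
    {x : ZMod N → X} (hx : x ∈ Pol X N e) {t : ℝ} (ht : N * e ≤ t) : pol m N e x t = x 0 := by
  unfold pol
  rw [cl_of_ge (by rw [le_div_iff₀ he0]; linarith)]
  have := bar_int hm he hx (N : ℤ)
  rw [Int.cast_natCast, Int.cast_natCast, ZMod.natCast_self] at this
  exact this

theorem pol_mid' (hm : GMap X r m) {σ : X → X} {N : ℕ} {e : ℝ} (he : e ≤ r) (he0 : 0 < e)
    {x : ZMod (2 * N) → X} (hx : x ∈ Sym X σ N e) :
    σ (pol m (2 * N) e x (N * e)) = pol m (2 * N) e x (N * e) := by
  have h1 : pol m (2 * N) e x (N * e) = x (((N : ℤ)) : ZMod (2 * N)) := by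
    unfold pol
    rw [mul_div_cancel_right₀ _ he0.ne', cl_of_mem (Nat.cast_nonneg N) (by
      push_cast
      have : (0 : ℝ) ≤ N := Nat.cast_nonneg N
      linarith)]
    have := bar_int hm he hx.1 (N : ℤ)
    rw [Int.cast_natCast] at this
    exact this
  rw [h1, ← hx.2]
  congr 1
  have h2 : ((2 * N : ℕ) : ZMod (2 * N)) = 0 := ZMod.natCast_self _
  push_cast at h2 ⊢
  have h3 : (N : ZMod (2 * N)) + (N : ZMod (2 * N)) = 0 := by
    rw [← h2]; ring
  exact neg_eq_of_add_eq_zero_left h3

end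

theorem t_OMM (X : Type) [MetricSpace X] (r : ℝ) (m : X → X → ℝ → X) (hm : GMap X r m)
    (σ : X → X) (hσ : Isometry σ) (hσ2 : ∀ x, σ (σ x) = x) (p : X) (hp : σ p = p) (a L : ℝ)
    (N : ℕ) [NeZero N] [NeZero (2 * N)] (ha : 0 < a) (hL : 0 ≤ L) (hr : a / N ≤ r)
    (Θ : X → ℝ → X) (hΘ : Tracks X σ p L Θ) (hS : SymC X σ N (a / N)) :
    OFC (Fx σ) p a (a + L) := by
  classical
  have hN : (0 : ℝ) < N := by
    have : 0 < N := Nat.pos_of_ne_zero (NeZero.ne N)
    exact_mod_cast this
  obtain ⟨δ, hδdef⟩ : ∃ δ, δ = a / N := ⟨_, rfl⟩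
  rw [← hδdef] at hr hS
  have hδ : 0 < δ := by rw [hδdef]; positivity
  have hNδ : N * δ = a := by rw [hδdef]; field_simp
  have hδr : δ ≤ r := hr
  have hN2 : ((2 * N : ℕ) : ℝ) * δ = 2 * a := by push_cast; rw [← hNδ]; ring
  have haa : a ≤ a + L := by linarith
  have hsub : OF (Fx σ) p a ⊆ OF (Fx σ) p (a + L) := OF.mono haa
  -- constant polygons
  have hpc : ∀ y : X, pol m (2 * N) δ (fun _ => y) = fun _ => y := by
    intro y
    funext τ
    unfold pol bar
    exact hm.self (hδ.le.trans hδr) y ⟨Int.fract_nonneg _, (Int.fract_lt_one _).le⟩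
  have hsc : samp (2 * N) δ (fun _ => p) = fun _ => p := rfl
  have hval : Continuous fun d : ↥(OF (Fx σ) p a) => d.1 := continuous_subtype_val
  have hem : ∀ d : ↥(OF (Fx σ) p a), ed σ a d.1 ∈ Om p (2 * a) := fun d => ed_mem hσ hp ha d.2
  have hsm : ∀ d : ↥(OF (Fx σ) p a), samp (2 * N) δ (ed σ a d.1) ∈ Symp X σ N δ p :=
    fun d => samp_symp hσ hσ2 hp ha d.2 hδ.le hNδ
  have hedc : Continuous fun d : ↥(OF (Fx σ) p a) => ed σ a d.1 := ed_cont hval hσ.continuous a
  -- the first homotopy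
  have H1 : Htp (Y := ↥(OF (Fx σ) p a)) (W := ℝ → X) (OF (Fx σ) p (a + L))
      {d | d.1 = fun _ => p} (fun d => d.1)
      (fun d => rp a (pol m (2 * N) δ (samp (2 * N) δ (ed σ a d.1)))) := by
    refine Htp.mono (T := OF (Fx σ) p a) ?_ hsub
    refine Htp.of_clamp (fun d u => rp a (k1 m δ (ed σ a d.1) u)) ?_ ?_ ?_ ?_ ?_
    · rw [continuousOn_iff_continuous_domRestrict]
      refine rp_cont (F := fun z : ↥{z : ↥(OF (Fx σ) p a) × ℝ | z.2 ∈ Icc (0 : ℝ) 1} =>
        k1 m δ (ed σ a z.1.1.1) z.1.2) ?_ a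
      exact k1_cont hm hδ hδr
        (F := fun z : ↥{z : ↥(OF (Fx σ) p a) × ℝ | z.2 ∈ Icc (0 : ℝ) 1} => ed σ a z.1.1.1)
        (u := fun z => z.1.2) (hedc.comp (continuous_fst.comp continuous_subtype_val))
        (fun z => (hem z.1.1).1) (by fun_prop) (fun z => z.2)
    · intro d u hu
      refine rp_mem ha.le (k1_om hm hδ hδr hN2 (hem d) hu) ?_
      have h1 : k1 m δ (ed σ a d.1) u a = ed σ a d.1 a := by
        have hτ : a ∈ Icc (((N : ℤ) : ℝ) * δ) ((((N : ℤ) : ℝ) + 1) * δ) := by
          rw [Int.cast_natCast, hNδ]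
          exact ⟨le_rfl, by nlinarith⟩
        rw [k1_eq hm hδ hδr (hem d).1 hu (N : ℤ) hτ]
        obtain ⟨w1, w2, w3, w4⟩ := w_mem hδ hδr (hem d).1 hu hτ
        have e0 : a - ((N : ℤ) : ℝ) * δ = 0 := by rw [Int.cast_natCast, hNδ, sub_self]
        rw [e0, zero_div, hm.zero _ _ w4, Int.cast_natCast, hNδ]
      rw [h1]
      exact ed_mid d.2
    · intro d
      have h1 : k1 m δ (ed σ a d.1) 0 = ed σ a d.1 := by
        funext τ
        exact k1_zero hm hδ hδr (hem d).1 ⟨le_rfl, zero_le_one⟩ τ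
      change rp a (k1 m δ (ed σ a d.1) 0) = d.1
      rw [h1]
      exact rp_ed d.2
    · intro d
      change rp a (k1 m δ (ed σ a d.1) 1) = _
      rw [k1_one hm hδ hδr hN2 (hem d)]
    · intro d hd u hu
      have hd' : d.1 = fun _ => p := hd
      change rp a (k1 m δ (ed σ a d.1) u) = d.1
      rw [hd', ed_const hp]
      have h3 : k1 m δ (fun _ => p) u = fun _ => p := by
        funext τ
        unfold k1
        refine hm.self (hδ.le.trans hδr) p ?_
        have h1 : τ ≤ max ((⌊τ / δ⌋ + u) * δ) τ := le_max_right _ _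
        have h2 : (⌊τ / δ⌋ : ℝ) * δ ≤ τ := by rw [← le_div_iff₀ hδ]; exact Int.floor_le _
        exact ⟨div_nonneg (by linarith) (by linarith), div_le_one_of_le₀ (by linarith)
          (by linarith)⟩
      rw [h3]
      rfl
  -- the homotopy of polygons
  obtain ⟨c, H, hH, hHT, hH0', hH1', hHZ'⟩ := hS
  have hH0 : ∀ (y : ↥(Sym X σ N δ)) (s : ℝ), s ≤ 0 → H y s = y.1 := hH0'
  have hH1 : ∀ (y : ↥(Sym X σ N δ)) (s : ℝ), 1 ≤ s → H y s = fun _ => c y := hH1'
  have hHZ : ∀ y : ↥(Sym X σ N δ), (∀ i, y.1 i = y.1 0) → ∀ s, H y s = y.1 := hHZ'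
  set u : ↥(OF (Fx σ) p a) → ↥(Sym X σ N δ) := fun d =>
    ⟨samp (2 * N) δ (ed σ a d.1), (hsm d).1⟩ with hu
  have huc : Continuous u := Continuous.subtype_mk (samp_cont hedc) _
  have hu0 : ∀ d, (u d).1 0 = p := fun d => (hsm d).2
  have hHc : Continuous (fun z : ↥(OF (Fx σ) p a) × ℝ => H (u z.1) z.2) :=
    hH.comp ((huc.comp continuous_fst).prodMk continuous_snd)
  have hHF : ∀ d s, H (u d) s 0 ∈ Fx σ := by
    intro d s
    have h1 := (hHT (u d) s).2 0
    rw [neg_zero] at h1
    exact h1.symm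
  obtain ⟨hΘc, hΘp, hΘm⟩ := hΘ
  have hΘH : Continuous (fun z : ↥(OF (Fx σ) p a) × ℝ => Θ (H (u z.1) z.2 0)) :=
    hΘc.comp_continuous ((continuous_apply (0 : ZMod (2 * N))).comp hHc) fun z => hHF _ _
  -- the second homotopy
  have H2 : Htp (Y := ↥(OF (Fx σ) p a)) (W := ℝ → X) (OF (Fx σ) p (a + L))
      {d | d.1 = fun _ => p}
      (fun d => rp a (pol m (2 * N) δ (samp (2 * N) δ (ed σ a d.1))))
      (fun d t => Θ (c (u d)) (t - a)) := by
    refine ⟨fun d s t => if t ≤ a then rp a (pol m (2 * N) δ (H (u d) s)) t else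
      Θ (H (u d) s 0) (t - a), ?_, ?_, ?_, ?_, ?_⟩
    · refine continuous_pi fun t => ?_
      by_cases ht : t ≤ a
      · simp only [if_pos ht]
        have c1 := pol_cont hm hδ hδr (F := fun z : ↥(OF (Fx σ) p a) × ℝ => H (u z.1) z.2)
          (κ := fun _ => δ) hHc (fun z => (hHT _ _).1) continuous_const (fun _ => hδ)
        exact (continuous_apply t).comp (rp_cont c1 a)
      · simp only [if_neg ht]
        exact (continuous_apply (t - a)).comp hΘH
    · intro d s
      have hβ := hΘm _ (hHF d s)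
      have hP := (hHT (u d) s).1
      refine ⟨?_, ?_, ?_, ?_⟩
      · refine Pool.Agent.Y467.GE.lip_join (F := rp a (pol m (2 * N) δ (H (u d) s)))
          (G := fun t => Θ (H (u d) s 0) (t - a)) ?_ ?_ ?_
        · intro s' t'
          unfold rp
          refine (pol_lip hm hδr hδ hP _ _).trans ?_
          rw [add_sub_add_right_eq_sub]
          exact abs_max_sub_max_le_abs _ _ _
        · intro s' t'
          refine (hβ.1 _ _).trans (le_of_eq ?_)
          rw [sub_sub_sub_cancel_right]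
        · rw [sub_self, hβ.2.1 0 le_rfl]
          unfold rp
          rw [max_eq_left ha.le]
          exact pol_end hm hδr hδ hP (by rw [hN2]; linarith)
      · dsimp only
        rw [if_pos ha.le]
        change σ (rp a (pol m (2 * N) δ (H (u d) s)) 0) = rp a (pol m (2 * N) δ (H (u d) s)) 0
        unfold rp
        rw [max_self, zero_add, ← hNδ]
        exact pol_mid' hm hδr hδ (hHT (u d) s)
      · intro t ht
        dsimp only
        rw [if_pos (ht.trans ha.le), if_pos ha.le]
        unfold rp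
        rw [max_eq_right ht, max_self]
      · intro t ht
        dsimp only
        split_ifs with h1
        · have h2 : t = a := by linarith
          have h3 : L = 0 := by linarith
          unfold rp
          rw [h2, max_eq_left ha.le, pol_end hm hδr hδ hP (by rw [hN2]; linarith)]
          rw [← hβ.2.1 0 le_rfl]
          exact hβ.2.2 0 (by linarith)
        · exact hβ.2.2 _ (by linarith)
    · intro d s hs
      funext t
      dsimp only
      have h1 : H (u d) s = samp (2 * N) δ (ed σ a d.1) := hH0 _ _ hs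
      split_ifs with h2
      · rw [h1]
      · rw [h1]
        have h3 : samp (2 * N) δ (ed σ a d.1) 0 = p := (hsm d).2
        rw [h3, hΘp]
        unfold rp
        push Not at h2
        rw [max_eq_left (by linarith), pol_end hm hδr hδ (hsm d).1.1 (by rw [hN2]; linarith), h3]
    · intro d s hs
      funext t
      dsimp only
      rw [hH1 _ _ hs, hpc]
      split_ifs with h2
      · have h3 : c (u d) ∈ Fx σ := by
          have := hHF d 1
          rwa [hH1 _ _ le_rfl] at this
        rw [(hΘm _ h3).2.1 _ (by linarith)]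
        rfl
      · rfl
    · intro d hd s
      have hd' : d.1 = fun _ => p := hd
      have h1 : (u d).1 = fun _ => p := by
        change samp (2 * N) δ (ed σ a d.1) = _
        rw [hd', ed_const hp, hsc]
      have h2 : H (u d) s = fun _ => p := by
        rw [hHZ (u d) (fun i => by rw [h1]) s, h1]
      funext t
      dsimp only
      rw [h2, hpc, hd', ed_const hp, hsc, hpc, hΘp]
      split_ifs <;> rfl
  -- the third homotopy
  have H3 : Htp (Y := ↥(OF (Fx σ) p a)) (W := ℝ → X) (OF (Fx σ) p (a + L))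
      {d | d.1 = fun _ => p} (fun d t => Θ (c (u d)) (t - a)) (fun _ _ => p) := by
    refine ⟨fun d s t => Θ (H (u d) (1 - s) 0) (t - a), ?_, ?_, ?_, ?_, ?_⟩
    · refine continuous_pi fun t => ?_
      refine (continuous_apply (t - a)).comp ?_
      have : Continuous (fun z : ↥(OF (Fx σ) p a) × ℝ => ((z.1, 1 - z.2) :
        ↥(OF (Fx σ) p a) × ℝ)) := by fun_prop
      exact hΘH.comp this
    · intro d s
      have hβ := hΘm _ (hHF d (1 - s))
      refine ⟨fun s' t' => ?_, ?_, ?_, ?_⟩
      · refine (hβ.1 _ _).trans (le_of_eq ?_)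
        rw [sub_sub_sub_cancel_right]
      · dsimp only
        rw [hβ.2.1 _ (by linarith)]
        exact hHF d (1 - s)
      · intro t ht
        dsimp only
        rw [hβ.2.1 _ (by linarith), hβ.2.1 _ (by linarith)]
      · intro t ht
        exact hβ.2.2 _ (by linarith)
    · intro d s hs
      funext t
      dsimp only
      rw [hH1 _ _ (by linarith)]
    · intro d s hs
      funext t
      dsimp only
      rw [hH0 _ _ (by linarith), hu0, hΘp]
    · intro d hd s
      have hd' : d.1 = fun _ => p := hd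
      have h1 : (u d).1 = fun _ => p := by
        change samp (2 * N) δ (ed σ a d.1) = _
        rw [hd', ed_const hp, hsc]
      have h2 : ∀ s, H (u d) s = fun _ => p := by
        intro s
        rw [hHZ (u d) (fun i => by rw [h1]) s, h1]
      have h3 : c (u d) = p := by
        have := hH1 (u d) 1 le_rfl
        rw [h2] at this
        exact (congrFun this 0).symm
      funext t
      dsimp only
      rw [h2, h3]
  exact (H1.trans H2).trans H3

/-- the recursion with general lengths -/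
theorem t_RECG {X K : Type} [MetricSpace X] [TopologicalSpace K] (F : Set X) (p : X) (b : ℝ)
    (c : ℕ → ℝ) (q : ℕ) (hpF : p ∈ F) (hb : 0 ≤ b) (hc0 : c 0 = b)
    (hc : ∀ j, j < q → c j + b ≤ c (j + 1) - b)
    (hOm : ∀ j, j < q → OFC F p (c j + b) (c (j + 1) - b))
    (f : K → X) (A : Set K) (t : ℕ → K → ℝ) (ρ : ℕ → K → ℝ → X) (hD : Data p b q f A t ρ) :
    ∃ Γ : K → ℝ → X, Continuous Γ ∧ (∀ k, Γ k ∈ PF F (c q) ∧ Γ k (c q) = f k) ∧
      ∀ k ∈ A, Γ k = fun _ => p := by
  obtain ⟨htc, ht0, hex, hρc, hρ, hρA⟩ := hD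
  have main : ∀ n, n ≤ q → b ≤ c n ∧ ∃ Γ : K → ℝ → X,
      ContinuousOn Γ {k | 0 < ∑ j ∈ Finset.range (n + 1), t j k} ∧
      (∀ k, 0 < ∑ j ∈ Finset.range (n + 1), t j k →
        Γ k ∈ PF F (c n) ∧ Γ k (c n) = f k) ∧
      ∀ k ∈ A, 0 < ∑ j ∈ Finset.range (n + 1), t j k → Γ k = fun _ => p := by
    intro n
    induction n with
    | zero =>
      intro _
      refine ⟨hc0.ge, ρ 0, ?_, ?_, ?_⟩
      · simpa using hρc 0
      · intro k hk
        rw [Finset.sum_range_one] at hk
        rw [hc0]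
        exact ⟨Pa.toPF hpF (hρ 0 k hk).1, (hρ 0 k hk).2⟩
      · intro k hA hk
        rw [Finset.sum_range_one] at hk
        exact hρA 0 k hA hk
    | succ n ih =>
      intro hn
      obtain ⟨hcn, Γ, h1, h2, h3⟩ := ih (by omega)
      have hcc := hc n (by omega)
      have hcp : CPF F p (c n) b (c (n + 1)) := by
        have := Pool.Agent.R123.IF.t_CPF X F p (c n) b (c (n + 1) - b) hpF (hb.trans hcn) hb hcc
          (hOm n (by omega))
        rwa [sub_add_cancel] at this
      obtain ⟨Γ', h6, h7, h8⟩ := Pool.Agent.R520.IF.t_STEPF X K F p (c n) b (c (n + 1)) hpF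
        (hb.trans hcn) hb (by linarith) (by linarith) hcp f A
        (fun k => ∑ j ∈ Finset.range (n + 1), t j k) (t (n + 1)) Γ (ρ (n + 1))
        (continuous_finsetSum _ fun j _ => htc j) (htc (n + 1))
        (fun k => Finset.sum_nonneg fun j _ => ht0 j k) (ht0 (n + 1)) h1 (hρc (n + 1)) h2
        (hρ (n + 1)) h3 (hρA (n + 1))
      refine ⟨by linarith, Γ', ?_, ?_, ?_⟩
      · simpa only [Finset.sum_range_succ _ (n + 1)] using h6
      · intro k hk
        rw [Finset.sum_range_succ _ (n + 1)] at hk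
        exact h7 k hk
      · intro k hA hk
        rw [Finset.sum_range_succ _ (n + 1)] at hk
        exact h8 k hA hk
  obtain ⟨-, Γ, h1, h2, h3⟩ := main q le_rfl
  have hpos : ∀ k, 0 < ∑ j ∈ Finset.range (q + 1), t j k := by
    intro k
    obtain ⟨j, hj, hk⟩ := hex k
    exact lt_of_lt_of_le hk (Finset.single_le_sum (f := fun j => t j k) (fun i _ => ht0 i k)
      (Finset.mem_range.2 (by omega)))
  refine ⟨Γ, ?_, fun k => h2 k (hpos k), fun k hA => h3 k hA (hpos k)⟩
  rw [← continuousOn_univ]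
  refine h1.mono fun k _ => hpos k

end Pool.Agent.R203.IF
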