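import Pool.Agent.Y489.GE.Stm

/-!
# Project IF (helper203): short closed geodesics from an isometric involution

Definitions and statements. `σ` is an isometric involution with connected fixed point set `F`,
points of which can be pushed along `F` by Lipschitz maps.
-/

set_option autoImplicit false

open Set Topology

noncomputable section

namespace Pool.Agent.R203.IF

open Pool.Agent.Y489.GE

/-- the fixed point set -/
def Fx {X : Type} (σ : X → X) : Set X := {x | σ x = x}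

/-- closed polygons with `2 N` vertices which are symmetric with respect to `σ` -/
def Sym (X : Type) [MetricSpace X] (σ : X → X) (N : ℕ) (δ : ℝ) : Set (ZMod (2 * N) → X) :=
  {x | x ∈ Pol X (2 * N) δ ∧ ∀ i, x (-i) = σ (x i)}

/-- symmetric polygons with first vertex `p` -/
def Symp (X : Type) [MetricSpace X] (σ : X → X) (N : ℕ) (δ : ℝ) (p : X) :
    Set (ZMod (2 * N) → X) :=
  {x | x ∈ Sym X σ N δ ∧ x 0 = p}

/-- the symmetric polygons are contracted to constant polygons -/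
def SymC (X : Type) [MetricSpace X] (σ : X → X) (N : ℕ) (δ : ℝ) : Prop :=
  ∃ c : ↥(Sym X σ N δ) → X, Htp (Y := ↥(Sym X σ N δ)) (W := ZMod (2 * N) → X) (Sym X σ N δ)
    {x | ∀ i, x.1 i = x.1 0} (fun x => x.1) (fun x _ => c x)

/-- the symmetric polygons with first vertex `p` are contracted to `p` -/
def SympC (X : Type) [MetricSpace X] (σ : X → X) (N : ℕ) (δ δ' : ℝ) (p : X) : Prop :=
  Htp (Y := ↥(Symp X σ N δ p)) (W := ZMod (2 * N) → X) (Symp X σ N δ' p)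
    {x | ∀ i, x.1 i = p} (fun x => x.1) (fun _ _ => p)

/-- Moore paths starting in `F` -/
def PF {X : Type} [MetricSpace X] (F : Set X) (a : ℝ) : Set (ℝ → X) :=
  {d | (∀ s t, dist (d s) (d t) ≤ |s - t|) ∧ d 0 ∈ F ∧ (∀ t, t ≤ 0 → d t = d 0) ∧
    ∀ t, a ≤ t → d t = d a}

/-- Moore paths from `F` to `p` -/
def OF {X : Type} [MetricSpace X] (F : Set X) (p : X) (a : ℝ) : Set (ℝ → X) :=
  {d | (∀ s t, dist (d s) (d t) ≤ |s - t|) ∧ d 0 ∈ F ∧ (∀ t, t ≤ 0 → d t = d 0) ∧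
    ∀ t, a ≤ t → d t = p}

/-- the paths from `F` to `p` of length at most `a` are contracted within the paths of length at
most `B` -/
def OFC {X : Type} [MetricSpace X] (F : Set X) (p : X) (a B : ℝ) : Prop :=
  Htp (Y := ↥(OF F p a)) (W := ℝ → X) (OF F p B) {d | d.1 = fun _ => p} (fun d => d.1)
    (fun _ _ => p)

/-- pairs of a path starting in `F` and a path starting at `p` with the same end -/
def QF {X : Type} [MetricSpace X] (F : Set X) (p : X) (a b : ℝ) : Set ((ℝ → X) × (ℝ → X)) :=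
  {z | z.1 ∈ PF F a ∧ z.2 ∈ Pa p b ∧ z.1 a = z.2 b}

/-- the homotopy between the two paths -/
def CPF {X : Type} [MetricSpace X] (F : Set X) (p : X) (a b B : ℝ) : Prop :=
  ∃ C : ↥(QF F p a b) → ℝ → (ℝ → X), Continuous (fun z : ↥(QF F p a b) × ℝ => C z.1 z.2) ∧
    (∀ z s, C z s ∈ PF F B) ∧ (∀ z s, C z s B = z.1.1 a) ∧
    (∀ z s, s ≤ 1 / 4 → C z s = z.1.1) ∧ (∀ z s, 3 / 4 ≤ s → C z s = z.1.2) ∧
    ∀ z, z.1.1 = (fun _ => p) → z.1.2 = (fun _ => p) → ∀ s, C z s = fun _ => p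

/-- symmetric Birkhoff shortening -/
def S_BKS : Prop := ∀ (X : Type) [MetricSpace X] [CompactSpace X] (r₀ r : ℝ) (m : X → X → ℝ → X),
  GMap X r m → r < r₀ → UniqGeod X r₀ → ∀ σ : X → X, Isometry σ → (∀ x, σ (σ x) = x) →
  ∀ (N : ℕ) [NeZero N] [NeZero (2 * N)] (δ : ℝ), 0 < δ → δ ≤ r →
    (∀ x ∈ Pol X (2 * N) δ, (δ / (2 * (2 * N : ℕ))) ^ 2 ≤ En (2 * N) x →
      En (2 * N) (ph m (2 * N) (1 / 2) x) ≠ En (2 * N) x) →
    SymC X σ N δ

/-- from symmetric polygons to paths from `F` to `p` -/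
def S_OMF : Prop := ∀ (X : Type) [MetricSpace X] (r : ℝ) (m : X → X → ℝ → X), GMap X r m →
  ∀ σ : X → X, Isometry σ → (∀ x, σ (σ x) = x) →
  ∀ (p : X), σ p = p → ∀ (lam a : ℝ) (N : ℕ) [NeZero N] [NeZero (2 * N)], 1 ≤ lam → 0 < a →
    lam * (a / N) ≤ r → SympC X σ N (a / N) (lam * (a / N)) p → OFC (Fx σ) p a (lam * a)

/-- the homotopy between a path from `F` and a path from `p` with the same end -/
def S_CPF : Prop := ∀ (X : Type) [MetricSpace X] (F : Set X) (p : X) (a b B : ℝ), p ∈ F →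
  0 ≤ a → 0 ≤ b → a + b ≤ B → OFC F p (a + b) B → CPF F p a b (B + b)

/-- one step of the construction -/
def S_STEPF : Prop := ∀ (X K : Type) [MetricSpace X] [TopologicalSpace K] (F : Set X) (p : X)
  (a b B : ℝ), p ∈ F → 0 ≤ a → 0 ≤ b → a ≤ B → b ≤ B → CPF F p a b B →
  ∀ (f : K → X) (A : Set K) (T t : K → ℝ)
  (Γ ρ : K → ℝ → X), Continuous T → Continuous t → (∀ k, 0 ≤ T k) → (∀ k, 0 ≤ t k) →
  ContinuousOn Γ {k | 0 < T k} → ContinuousOn ρ {k | 0 < t k} →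
  (∀ k, 0 < T k → Γ k ∈ PF F a ∧ Γ k a = f k) → (∀ k, 0 < t k → ρ k ∈ Pa p b ∧ ρ k b = f k) →
  (∀ k ∈ A, 0 < T k → Γ k = fun _ => p) → (∀ k ∈ A, 0 < t k → ρ k = fun _ => p) →
  ∃ Γ' : K → ℝ → X, ContinuousOn Γ' {k | 0 < T k + t k} ∧
    (∀ k, 0 < T k + t k → Γ' k ∈ PF F B ∧ Γ' k B = f k) ∧
    ∀ k ∈ A, 0 < T k + t k → Γ' k = fun _ => p

/-- the construction -/
def S_RECF : Prop := ∀ (X K : Type) [MetricSpace X] [TopologicalSpace K] (F : Set X) (p : X)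
  (lam b : ℝ) (q : ℕ), p ∈ F → 1 ≤ lam → 0 ≤ b →
  (∀ j, j < q → OFC F p (al lam b j + b) (lam * (al lam b j + b))) →
  ∀ (f : K → X) (A : Set K) (t : ℕ → K → ℝ) (ρ : ℕ → K → ℝ → X), Data p b q f A t ρ →
  ∃ Γ : K → ℝ → X, Continuous Γ ∧ (∀ k, Γ k ∈ PF F (al lam b q) ∧ Γ k (al lam b q) = f k) ∧
    ∀ k ∈ A, Γ k = fun _ => p

/-- Lipschitz pushing along the fixed point set of `σ` -/
def PushS (X : Type) [MetricSpace X] (σ : X → X) (p : X) (lam : ℝ) : Prop :=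
  ∀ (K : Type) [MetricSpace K] [CompactSpace K] (b : K → ℝ → X),
    Continuous (fun z : K × ℝ => b z.1 z.2) → (∀ k s, σ (b k s) = b k s) →
    (∀ k s, s ≤ 1 / 2 → b k s = p) → (∀ k s, 1 ≤ s → b k s = b k 1) →
    ∃ φ : K → ℝ → X → X, Continuous (fun z : (K × ℝ) × X => φ z.1.1 z.1.2 z.2) ∧
      (∀ k s x y, dist (φ k s x) (φ k s y) ≤ lam * dist x y) ∧
      (∀ k s, φ k s (b k s) = p) ∧ (∀ k s, s ≤ 0 → ∀ x, φ k s x = x) ∧
      ∀ k s x, φ k s (σ x) = σ (φ k s x)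

/-- the criterion: a group which acts transitively on the fixed point set -/
def S_PGF : Prop := ∀ (X G : Type) [MetricSpace X] [Group G] [TopologicalSpace G]
  [IsTopologicalGroup G] [MulAction G X] [ContinuousSMul G X] (σ : X → X) (p : X) (lam : ℝ),
  Continuous σ → σ p = p →
  (∀ (g : G) (x y : X), dist (g • x) (g • y) ≤ lam * dist x y) →
  (∀ (g : G) (x : X), g • σ x = σ (g • x)) →
  (∃ U ∈ 𝓝 p, ∃ v : X → G, ContinuousOn v (U ∩ Fx σ) ∧ v p = 1 ∧ ∀ x ∈ U, σ x = x → v x • p = x) →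
  PushS X σ p lam

theorem PF.mono {X : Type} [MetricSpace X] {F : Set X} {a b : ℝ} (hab : a ≤ b) {d : ℝ → X}
    (hd : d ∈ PF F a) : d ∈ PF F b :=
  ⟨hd.1, hd.2.1, hd.2.2.1, fun t ht => by rw [hd.2.2.2 t (hab.trans ht), hd.2.2.2 b hab]⟩

theorem Pa.toPF {X : Type} [MetricSpace X] {F : Set X} {p : X} (hp : p ∈ F) {a : ℝ} {d : ℝ → X}
    (hd : d ∈ Pa p a) : d ∈ PF F a :=
  ⟨hd.1, by rw [hd.2.1 0 le_rfl]; exact hp, fun t ht => by
    rw [hd.2.1 t ht, hd.2.1 0 le_rfl], hd.2.2⟩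

end Pool.Agent.R203.IF
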